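import Pool.Agent.Q19.StD

set_option autoImplicit false

/-!
# MP_3c89f4_co: richness of second and third `S`-preimages of Sturmian words

For every Sturmian word `u`, every `S²`-preimage is `H`-rich and `R`-rich, and every
`S³`-preimage is `H`-rich but not `R`-rich.

From `Pool/Agent/Q160/WPal.lean`: `fac x i n` is the block `x_i ⋯ x_{i+n-1}`, `facN x n` the set of
factors of length `n`, `palN x n` the palindromic ones, `cpx x n` and `pcx x n` their numbers.
-/

namespace Pool.Agent.Results.MP_3c89f4_co.SturmianPreimages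

open Q160.WPal Pool.Agent.Q19.St

/-- `S(x)_i = x_i + x_{i+1} mod 2`. -/
def S (x : ℕ → Bool) : ℕ → Bool := fun i => xor (x i) (x (i + 1))

/-- Sturmian word: `n + 1` factors of every length `n`. -/
def IsSturmian (u : ℕ → Bool) : Prop := ∀ n, cpx u n = n + 1

/-- The antimorphism `E`: reverse and exchange the letters. -/
def E (w : List Bool) : List Bool := (w.map (fun b => !b)).reverse

/-- `P^E_x(n)`: the number of factors of length `n` fixed by `E`. -/
noncomputable def ecx (x : ℕ → Bool) (n : ℕ) : ℕ := {w | w ∈ facN x n ∧ E w = w}.ncard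

/-- `x` is `R`-rich: every factor of length `n` contains exactly `n + 1` distinct palindromes. -/
def RRich (x : ℕ → Bool) : Prop :=
  ∀ i n, {v : List Bool | v <:+: fac x i n ∧ v.reverse = v}.ncard = n + 1

/-- `x` is `H`-rich: the language is closed under `R` and `E` and
`ΔC_x(n) + 4 = P_x(n+1) + P_x(n) + P^E_x(n+1) + P^E_x(n)` for all `n ≥ 1`. -/
structure HRich (x : ℕ → Bool) : Prop where
  closedR : ∀ n, ∀ w ∈ facN x n, w.reverse ∈ facN x n
  closedE : ∀ n, ∀ w ∈ facN x n, E w ∈ facN x n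
  eq : ∀ n, 1 ≤ n → (cpx x (n + 1) : ℤ) - cpx x n + 4 =
    pcx x (n + 1) + pcx x n + ecx x (n + 1) + ecx x n

/-- a preimage under `S` -/
def prim (x : ℕ → Bool) : ℕ → Bool
  | 0 => false
  | n + 1 => xor (prim x n) (x n)

theorem prim_pre (x : ℕ → Bool) : Pre (prim x) x := by
  intro p
  change x p = xor (prim x p) (xor (prim x p) (x p))
  cases prim x p <;> cases x p <;> rfl

/-- the skew product -/
def TT (a : Bool) (g : Bool × Bool × Bool) : Bool × Bool × Bool :=
  (xor g.1 a, xor g.2.1 g.1, xor g.2.2 g.2.1)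

theorem TT_inj (a : Bool) : Function.Injective (TT a) := by
  cases a <;> decide

theorem TT_trans : ∀ F : Finset (Bool × Bool × Bool), F.Nonempty → (∀ a, F.image (TT a) = F) →
    F = Finset.univ := by decide +kernel

section

variable {u y x z : ℕ → Bool}

theorem states (hu : IsSt u) (hy : Pre y u) (hx : Pre x y) (hz : Pre z x) (p n : ℕ)
    (g : Bool × Bool × Bool) :
    ∃ q, fac u q n = fac u p n ∧ y q = g.1 ∧ x q = g.2.1 ∧ z q = g.2.2 := by
  obtain ⟨q, hq, hg⟩ := all_states hu TT TT_inj (fun p => (y p, x p, z p)) (by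
    intro p
    simp only [TT]
    rw [hy.next, hx.next, hz.next]) TT_trans p n g
  exact ⟨q, hq, by rw [← hg], by rw [← hg], by rw [← hg]⟩

theorem full1 (hu : IsSt u) (hy : Pre y u) (hx : Pre x y) (hz : Pre z x) : Full y u := by
  intro p n
  obtain ⟨q, h1, h2, _⟩ := states hu hy hx hz p n (!y p, x p, z p)
  refine ⟨q, h1, ?_⟩
  rw [h2]
  change (!y p) ≠ y p
  cases y p <;> decide

theorem full2 (hu : IsSt u) (hy : Pre y u) (hx : Pre x y) (hz : Pre z x) : Full x y := by
  intro p n
  obtain ⟨q, h1, h2, h3, _⟩ := states hu hy hx hz p n (y p, !x p, z p)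
  refine ⟨q, fac_pre (hy.eq h2 h1) (by omega), ?_⟩
  rw [h3]
  change (!x p) ≠ x p
  cases x p <;> decide

theorem full3 (hu : IsSt u) (hy : Pre y u) (hx : Pre x y) (hz : Pre z x) : Full z x := by
  intro p n
  obtain ⟨q, h1, h2, h3, h4⟩ := states hu hy hx hz p n (y p, x p, !z p)
  refine ⟨q, fac_pre (hx.eq h3 (fac_pre (hy.eq h2 h1) (Nat.le_succ n))) (by omega), ?_⟩
  rw [h4]
  change (!z p) ≠ z p
  cases z p <;> decide

theorem pcx_zero (x : ℕ → Bool) : pcx x 0 = 1 := by
  unfold pcx
  rw [Set.ncard_eq_one]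
  refine ⟨[], ?_⟩
  ext w
  constructor
  · rintro ⟨⟨i, rfl⟩, _⟩
    simp [fac]
  · intro h
    rw [Set.mem_singleton_iff] at h
    rw [h]
    exact ⟨⟨0, by simp [fac]⟩, rfl⟩

/-- values for `y` -/
theorem y_cpx (hu : IsSt u) (hy : Pre y u) (hF : Full y u) (n : ℕ) :
    cpx y (n + 1) = 2 * (n + 1) := by
  rw [cpx_lift hy hF, hu n]

theorem y_pcx (hu : IsSt u) (hy : Pre y u) (hF : Full y u) (n : ℕ) : pcx y (n + 1) = 2 := by
  rw [palN_lift hy hF, epal_one hu]

theorem y_T (hu : IsSt u) (hy : Pre y u) (hF : Full y u) (n : ℕ) : T y n = 0 := by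
  unfold T
  rcases n with _ | n
  · rw [y_cpx hu hy hF 0, y_pcx hu hy hF 0, cpx_zero, pcx_zero]
    norm_num
  · rw [y_cpx hu hy hF, y_cpx hu hy hF, y_pcx hu hy hF, y_pcx hu hy hF]
    push_cast
    ring

/-- values for `x` -/
theorem x_cpx (hu : IsSt u) (hy : Pre y u) (hx : Pre x y) (h1 : Full y u) (h2 : Full x y)
    (n : ℕ) : cpx x (n + 2) = 4 * (n + 1) := by
  rw [cpx_lift hx h2, y_cpx hu hy h1]
  ring

theorem x_cpx1 (hx : Pre x y) (h2 : Full x y) : cpx x 1 = 2 := by
  rw [cpx_lift hx h2 0, cpx_zero]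

theorem x_pcx1 (hx : Pre x y) (h2 : Full x y) : pcx x 1 = 2 := by
  rw [palN_lift hx h2 0, epal_even y rfl, pcx_zero]

theorem x_pcx (hu : IsSt u) (hy : Pre y u) (hx : Pre x y) (h1 : Full y u) (h2 : Full x y)
    (n : ℕ) : pcx x (n + 2) = if n % 2 = 0 then 2 else 4 := by
  rw [palN_lift hx h2]
  split_ifs with hn
  · rw [epal_odd (Full.closedComp hy h1) (by omega), y_pcx hu hy h1]
  · rw [epal_even y (by omega), y_pcx hu hy h1]

theorem x_T (hu : IsSt u) (hy : Pre y u) (hx : Pre x y) (h1 : Full y u) (h2 : Full x y)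
    (n : ℕ) : T x n = 0 := by
  unfold T
  rcases n with _ | _ | n
  · rw [x_cpx1 hx h2, x_pcx1 hx h2, cpx_zero, pcx_zero]
    norm_num
  · rw [x_cpx hu hy hx h1 h2 0, x_pcx hu hy hx h1 h2 0]
    change _ - ((cpx x 1 : ℕ) : ℤ) + 2 - _ - ((pcx x 1 : ℕ) : ℤ) = 0
    rw [x_cpx1 hx h2, x_pcx1 hx h2]
    norm_num
  · rw [x_cpx hu hy hx h1 h2 (n + 1), x_cpx hu hy hx h1 h2 n, x_pcx hu hy hx h1 h2 (n + 1),
      x_pcx hu hy hx h1 h2 n]
    rcases Nat.mod_two_eq_zero_or_one n with h | h
    · rw [if_neg (by omega), if_pos h]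
      push_cast
      ring
    · rw [if_pos (by omega), if_neg (by omega)]
      push_cast
      ring

/-- values for `z` -/
theorem z_cpx (hu : IsSt u) (hy : Pre y u) (hx : Pre x y) (hz : Pre z x) (h1 : Full y u)
    (h2 : Full x y) (h3 : Full z x) (n : ℕ) : cpx z (n + 3) = 8 * (n + 1) := by
  rw [cpx_lift hz h3, x_cpx hu hy hx h1 h2]
  ring

theorem z_pcx (hu : IsSt u) (hy : Pre y u) (hx : Pre x y) (hz : Pre z x) (h1 : Full y u)
    (h2 : Full x y) (h3 : Full z x) (n : ℕ) : pcx z (n + 3) = 4 := by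
  rw [palN_lift hz h3]
  rcases Nat.mod_two_eq_zero_or_one n with h | h
  · rw [epal_even x (by omega), x_pcx hu hy hx h1 h2, if_pos h]
  · rw [epal_odd (Full.closedComp hx h2) (by omega), x_pcx hu hy hx h1 h2, if_neg (by omega)]

theorem z_T (hu : IsSt u) (hy : Pre y u) (hx : Pre x y) (hz : Pre z x) (h1 : Full y u)
    (h2 : Full x y) (h3 : Full z x) (n : ℕ) : T z (n + 3) = 2 := by
  unfold T
  have e1 := z_cpx hu hy hx hz h1 h2 h3 n
  have e2 := z_cpx hu hy hx hz h1 h2 h3 (n + 1)
  have e3 := z_pcx hu hy hx hz h1 h2 h3 n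
  have e4 := z_pcx hu hy hx hz h1 h2 h3 (n + 1)
  rw [show n + 1 + 3 = n + 3 + 1 by ring] at e2 e4
  rw [e1, e2, e3, e4]
  push_cast
  ring

/-- `H`-richness of a full preimage of a word with `T = 0` -/
theorem hrich (hx : Pre x y) (hF : Full x y) (hc : ClosedRev y) (hT : ∀ n, T y n = 0) :
    HRich x := by
  have hcx := Full.closedRev hx hF hc
  have hcc := Full.closedComp hx hF
  refine ⟨?_, ?_, ?_⟩
  · rintro n _ ⟨i, rfl⟩
    exact hcx i n
  · rintro n _ ⟨i, rfl⟩
    obtain ⟨q, hq⟩ := hcc i n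
    have : E (fac x i n) = (fac x q n).reverse := by
      unfold E
      congr 1
      unfold fac
      rw [List.map_map]
      apply List.map_congr_left
      intro t ht
      rw [List.mem_range] at ht
      exact (hq t ht).symm
    rw [this]
    exact hcx q n
  · intro n hn
    have hsum : ∀ m, (pcx x (m + 1) : ℤ) + ecx x (m + 1) = 2 * pcx y m := by
      intro m
      have e1 := palN_lift hx hF m
      have e2 := EpalN_lift hx hF m
      have e3 := epal_add_opal y m
      have e4 : ecx x (m + 1) = (EpalN x (m + 1)).ncard := rfl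
      rw [e4, e1, e2, ← e3]
      push_cast
      ring
    obtain ⟨k, rfl⟩ : ∃ k, n = k + 1 := ⟨n - 1, by omega⟩
    have h1 := hsum k
    have h2 := hsum (k + 1)
    have h3 := hT k
    unfold T at h3
    rw [cpx_lift hx hF, cpx_lift hx hF]
    push_cast
    linarith

end

theorem pre_S (x : ℕ → Bool) : Pre x (S x) := fun _ => rfl

/-- For every Sturmian word `u`: all `S²`-preimages are `H`-rich and `R`-rich, all
`S³`-preimages are `H`-rich but not `R`-rich. -/
theorem result (u : ℕ → Bool) (hu : IsSturmian u) :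
    (∀ x, S (S x) = u → HRich x ∧ RRich x) ∧
    (∀ z, S (S (S z)) = u → HRich z ∧ ¬ RRich z) := by
  have hust : IsSt u := hu
  have hcu : ClosedRev u := closedRev hust
  constructor
  · intro x hxu
    have hy : Pre (S x) u := by rw [← hxu]; exact pre_S _
    have hx := pre_S x
    have hz := prim_pre x
    have f1 := full1 hust hy hx hz
    have f2 := full2 hust hy hx hz
    have hcy := Full.closedRev hy f1 hcu
    have hcx := Full.closedRev hx f2 hcy
    refine ⟨hrich hx f2 hcy (y_T hust hy f1), ?_⟩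
    exact rich_of_palRet (palRet hcx (x_T hust hy hx f1 f2))
  · intro z hzu
    have hy : Pre (S (S z)) u := by rw [← hzu]; exact pre_S _
    have hx := pre_S (S z)
    have hz := pre_S z
    have f1 := full1 hust hy hx hz
    have f2 := full2 hust hy hx hz
    have f3 := full3 hust hy hx hz
    have hcy := Full.closedRev hy f1 hcu
    have hcx := Full.closedRev hx f2 hcy
    have hcz := Full.closedRev hz f3 hcx
    refine ⟨hrich hz f3 hcx (x_T hust hy hx f1 f2), ?_⟩
    intro hrich
    have hret : PalRet z 0 := palRet_of_rich hrich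
    have hinf : InfPal z := by
      unfold InfPal
      intro hfin
      -- lengths are unbounded
      have himg : (Set.range (fun n : ℕ => n + 3)) ⊆
          List.length '' {w | ∃ n, w ∈ palN z n} := by
        rintro _ ⟨n, rfl⟩
        have h4 := z_pcx hust hy hx hz f1 f2 f3 n
        have hne : (palN z (n + 3)).Nonempty := by
          rw [← Set.ncard_pos (palN_finite z (n + 3))]
          unfold pcx at h4
          omega
        obtain ⟨w, hw⟩ := hne
        refine ⟨w, ⟨n + 3, hw⟩, ?_⟩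
        obtain ⟨⟨i, rfl⟩, _⟩ := hw
        simp
      have h5 := (hfin.image List.length).subset himg
      exact Set.infinite_range_of_injective (fun a b h => by simpa using h) h5
    obtain ⟨N, hN⟩ := T_eventually_zero hcz hinf hret
    have h6 := hN (N + 3) (by omega)
    rw [z_T hust hy hx hz f1 f2 f3 N] at h6
    norm_num at h6

end Pool.Agent.Results.MP_3c89f4_co.SturmianPreimages
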